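import Pool.Agent.ZQ.F2
import Pool.Agent.ZQ.POS
import Pool.Agent.ZP.EX
import Pool.Agent.ZQ.T1U
import Pool.Agent.ZI.Phi

/-! # Shape theorem for the infection on the zero-range process, large densities, ALL recovery rates in `[0, ∞]`

`Model`: the rate function `g` with `g 0 = 0` and increments in `[Gm, Gp]`, `0 < Gm ≤ 1 ≤ Gp`, and the fugacity
`φ > 0` of the invariant product measure.  `Clocks m δ d P`: the graphical construction on a probability space
with the rate `δ` of the recovery labels (independent Poisson clocks and an independent initial configuration with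
the invariant product law).

The recovery rate is `δ : ℝ≥0∞`.
* `δ < ∞`: an infected particle that is alone at its site recovers when a recovery label of the site rings (total rate
  `δ`).
* `δ = ∞`: the recovery labels have the rate `0`, and an infected particle recovers as soon as it is alone at its
  site.  So the infected sites are sites with at least two particles: the threshold `thr δ` is `2` in this case.
-/

set_option autoImplicit false

open scoped ENNReal BigOperators Classical Pointwise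
open MeasureTheory ZP

noncomputable section

namespace Pool.Agent.Results.MP_646828_pr.AllRates

/-- the density of the invariant product measure of fugacity `m.φ` -/
def dens (m : Model) : ℝ := (∑' k : ℕ, (k : ℝ) * m.wt0 k) / ∑' k : ℕ, m.wt0 k

/-- the smallest number of particles of an infected site: `2` for the recovery rate `∞`, `1` otherwise -/
def thr (δ : ℝ≥0∞) : ZQ.Thr where
  θ := if δ = ⊤ then 2 else 1
  pos := by split <;> norm_num

/-- survival for the recovery rate `δ ∈ [0, ∞]`: at every time there is an infected particle -/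
def surv {m : Model} {d : ℕ} {Ω : Type} [MeasurableSpace Ω] {P : Measure Ω} (δ : ℝ≥0∞)
    (C : Clocks m δ.toReal d P) : Set Ω := @ZQ.Surv (thr δ) d m δ.toReal Ω _ P C

/-- the sites that contain an infected particle at some time in `[0, t]`, for the recovery rate `δ ∈ [0, ∞]` -/
def visited {m : Model} {d : ℕ} {Ω : Type} [MeasurableSpace Ω] {P : Measure Ω} (δ : ℝ≥0∞)
    (C : Clocks m δ.toReal d P) (ω : Ω) (t : ℝ) : Set (Pos d) :=
  @ZQ.Iset (thr δ) d m δ.toReal Ω _ P C ω t

theorem thr_eq (δ : ℝ≥0∞) : thr δ = thr 0 ∨ thr δ = thr ⊤ := by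
  by_cases h : δ = ⊤
  · right
    rw [h]
  · left
    unfold thr
    simp [h]

/-- The shape theorem for large densities: for every dimension `d ≥ 1` and every rate function there is a density
`ρ1` such that for every density `ρ ≥ ρ1` and EVERY recovery rate `δ ∈ [0, ∞]` the following holds.  The density
`ρ` is attained by some fugacity; the clocks exist; the infection survives with positive probability; and there is a
deterministic shape `B`: almost surely on the event of survival the visited set has the asymptotic shape `B`.  The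
upper bound is also proved for all neighbours of visited sites: for `δ = ∞` this includes the empty sites to which an
infected particle jumps, where it is alone and recovers at once; so the theorem holds whether or not these sites are
counted as visited. -/
theorem result (d : ℕ) (hd : 0 < d) (g : ℕ → ℝ) (Gm Gp : ℝ) (g0 : g 0 = 0) (hGm : 0 < Gm)
    (hGm1 : Gm ≤ 1) (hGp : 1 ≤ Gp) (hlb : ∀ k, Gm ≤ g (k + 1) - g k)
    (hub : ∀ k, g (k + 1) - g k ≤ Gp) : ∃ ρ1 : ℝ, 0 < ρ1 ∧ ∀ ρ : ℝ, ρ1 ≤ ρ →
    (∃ m : Model, m.g = g ∧ m.Gm = Gm ∧ m.Gp = Gp ∧ dens m = ρ) ∧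
    ∀ m : Model, m.g = g → m.Gm = Gm → m.Gp = Gp → dens m = ρ → ∀ δ : ℝ≥0∞,
      (∃ (Ω : Type) (_ : MeasurableSpace Ω) (P : Measure Ω) (_ : IsProbabilityMeasure P),
        Nonempty (Clocks m δ.toReal d P)) ∧
      ∀ (Ω : Type) [MeasurableSpace Ω] (P : Measure Ω) [IsProbabilityMeasure P]
        (C : Clocks m δ.toReal d P), 0 < P (surv δ C) ∧
        ∃ B : Set (Fin d → ℝ), IsCompact B ∧ Convex ℝ B ∧ (interior B).Nonempty ∧
          ∀ ε : ℝ, 0 < ε → ε < 1 → ∀ᵐ ω ∂P, ω ∈ surv δ C →
            ∃ T0 : ℝ, ∀ t : ℝ, T0 ≤ t → ∀ x : Pos d,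
              ((fun j => (x j : ℝ)) ∈ ((1 - ε) * t) • B → x ∈ visited δ C ω t) ∧
              (∀ y ∈ visited δ C ω t, (x = y ∨ ∃ e : Dir d, x = y + dv e) →
                (fun j => (x j : ℝ)) ∈ ((1 + ε) * t) • B) := by
  obtain ⟨φa, hφa, hBa⟩ :=
    @ZQ.Rows.base_exists_u (thr 0) ⟨g, Gm, Gp, 1, g0, hGm, hGm1, hGp, hlb, hub, one_pos⟩ d hd
  obtain ⟨φb, hφb, hBb⟩ :=
    @ZQ.Rows.base_exists_u (thr ⊤) ⟨g, Gm, Gp, 1, g0, hGm, hGm1, hGp, hlb, hub, one_pos⟩ d hd
  have hφ1 : 0 < max φa φb := lt_max_of_lt_left hφa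
  refine ⟨max φa φb / Gm, div_pos hφ1 hGm, fun ρ hρ => ?_⟩
  have hρ0 : 0 < ρ := (div_pos hφ1 hGm).trans_le hρ
  refine ⟨?_, ?_⟩
  · obtain ⟨φ, hφ, hs, _, h⟩ := ZI.Rows.exists_fugacity g Gm Gp g0 hGm hlb hub ρ hρ0
    refine ⟨⟨g, Gm, Gp, φ, g0, hGm, hGm1, hGp, hlb, hub, hφ⟩, rfl, rfl, rfl, ?_⟩
    have hg : ∀ k, 0 < g (k + 1) := by
      intro k
      induction k with
      | zero =>
        have h1 := hlb 0
        rw [g0] at h1
        linarith
      | succ k ih =>
        have h1 := hlb (k + 1)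
        linarith
    have hpos : 0 < ∑' k : ℕ, φ ^ k / ∏ i ∈ Finset.range k, g (i + 1) := by
      refine hs.tsum_pos (fun k => ?_) 0 (by simp)
      exact div_nonneg (pow_nonneg hφ.le _) (Finset.prod_nonneg (fun i _ => (hg i).le))
    show (∑' k : ℕ, (k : ℝ) * (φ ^ k / ∏ i ∈ Finset.range k, g (i + 1))) /
      ∑' k : ℕ, φ ^ k / ∏ i ∈ Finset.range k, g (i + 1) = ρ
    rw [h, mul_div_assoc, div_self hpos.ne', mul_one]
  · intro m hg1 hg2 hg3 hdens δ
    have hm : m = wf ⟨g, Gm, Gp, 1, g0, hGm, hGm1, hGp, hlb, hub, one_pos⟩ m.φ m.φ_pos := by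
      cases m
      simp only at hg1 hg2 hg3
      subst hg1 hg2 hg3
      rfl
    have hZ : 1 ≤ ∑' k, m.wt0 k := ZI.P3aux.one_le_Z0 m
    have hle := ZP.Rows.dens_le m
    have hφ1' : max φa φb ≤ m.φ := by
      rw [div_le_iff₀ hGm] at hρ
      unfold dens at hdens
      rw [div_eq_iff (by linarith)] at hdens
      rw [hdens, ← mul_assoc] at hle
      have h2 := le_of_mul_le_mul_right hle (by linarith)
      rw [hg2] at h2
      linarith
    have hBase : ∃ (Cv a A r0 : ℕ) (c : ℝ), @ZQ.Base (thr δ) m δ.toReal d Cv a A r0 c := by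
      rcases thr_eq δ with h | h
      · rw [h, hm]
        exact hBa m.φ m.φ_pos ((le_max_left _ _).trans hφ1') δ.toReal
      · rw [h, hm]
        exact hBb m.φ m.φ_pos ((le_max_right _ _).trans hφ1') δ.toReal
    obtain ⟨Cv, a, A, r0, c, hBase⟩ := hBase
    have hδ : 0 ≤ δ.toReal := ENNReal.toReal_nonneg
    refine ⟨ZP.Rows.exists_clocks m δ.toReal hδ d, fun Ω _ P _ C => ?_⟩
    exact ⟨@ZQ.Rows.surv_pos (thr δ) d m δ.toReal Ω _ P _ hd hδ C Cv a A r0 c hBase,
      @ZQ.Rows.shape_theorem (thr δ) d m δ.toReal Ω _ P _ hd hδ C Cv a A r0 c hBase⟩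

end Pool.Agent.Results.MP_646828_pr.AllRates
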