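import Pool.Agent.ZP.F2
import Pool.Agent.ZP.POS
import Pool.Agent.ZP.EX
import Pool.Agent.ZP.T1
import Pool.Agent.ZI.Phi

/-! # Shape theorem for the infection on the zero-range process, small recovery rates

`Model`: the rate function `g` with `g 0 = 0` and increments in `[Gm, Gp]`, `0 < Gm ≤ 1 ≤ Gp`, and the fugacity
`φ > 0` of the invariant product measure.  `Clocks m δ d P`: the graphical construction on a probability space
with the recovery rate `δ` (independent Poisson clocks and an independent initial configuration with the invariant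
product law).  `infd C ω t`: the infected sites at the time `t`; at the time `0` the particles at the origin are
infected; an infected particle that is alone at its site recovers at the rate `δ`.  `Surv C`: at every time there is
an infected particle.  `Iset C ω t`: the sites that contain an infected particle at some time in `[0, t]`.
-/

set_option autoImplicit false

open scoped ENNReal BigOperators Classical Pointwise
open MeasureTheory ZP

noncomputable section

namespace Pool.Agent.Results.MP_646828_pr.SmallRecovery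

/-- the density of the invariant product measure of fugacity `m.φ` -/
def dens (m : Model) : ℝ := (∑' k : ℕ, (k : ℝ) * m.wt0 k) / ∑' k : ℕ, m.wt0 k

/-- The shape theorem for small recovery rates: every dimension `d ≥ 1`, every rate function, every density `ρ > 0`,
every recovery rate `δ` in an interval `[0, δ1]` with `δ1 > 0`.  The density `ρ` is attained by some fugacity; the
clocks exist; the infection survives with positive probability; and there is a deterministic shape `B`: almost
surely on the event of survival the visited set has the asymptotic shape `B`. -/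
theorem result (d : ℕ) (hd : 0 < d) (g : ℕ → ℝ) (Gm Gp : ℝ) (g0 : g 0 = 0) (hGm : 0 < Gm)
    (hGm1 : Gm ≤ 1) (hGp : 1 ≤ Gp) (hlb : ∀ k, Gm ≤ g (k + 1) - g k)
    (hub : ∀ k, g (k + 1) - g k ≤ Gp) (ρ : ℝ) (hρ : 0 < ρ) :
    (∃ m : Model, m.g = g ∧ dens m = ρ) ∧
    ∀ m : Model, m.g = g → dens m = ρ → ∃ δ1 : ℝ, 0 < δ1 ∧ ∀ δ : ℝ, 0 ≤ δ → δ ≤ δ1 →
      (∃ (Ω : Type) (_ : MeasurableSpace Ω) (P : Measure Ω) (_ : IsProbabilityMeasure P),
        Nonempty (Clocks m δ d P)) ∧
      ∀ (Ω : Type) [MeasurableSpace Ω] (P : Measure Ω) [IsProbabilityMeasure P]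
        (C : Clocks m δ d P), 0 < P (Surv C) ∧
        ∃ B : Set (Fin d → ℝ), IsCompact B ∧ Convex ℝ B ∧ (interior B).Nonempty ∧
          ∀ ε : ℝ, 0 < ε → ε < 1 → ∀ᵐ ω ∂P, ω ∈ Surv C →
            ∃ T0 : ℝ, ∀ t : ℝ, T0 ≤ t → ∀ x : Pos d,
              ((fun j => (x j : ℝ)) ∈ ((1 - ε) * t) • B → x ∈ Iset C ω t) ∧
              (x ∈ Iset C ω t → (fun j => (x j : ℝ)) ∈ ((1 + ε) * t) • B) := by
  refine ⟨?_, fun m _ _ => ?_⟩
  · obtain ⟨φ, hφ, hs, _, h⟩ := ZI.Rows.exists_fugacity g Gm Gp g0 hGm hlb hub ρ hρ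
    refine ⟨⟨g, Gm, Gp, φ, g0, hGm, hGm1, hGp, hlb, hub, hφ⟩, rfl, ?_⟩
    have hg : ∀ k, 0 < g (k + 1) := by
      intro k
      induction k with
      | zero =>
        have h1 := hlb 0
        rw [g0] at h1
        linarith
      | succ k ih =>
        have h1 := hlb (k + 1)
        linarith
    have hpos : 0 < ∑' k : ℕ, φ ^ k / ∏ i ∈ Finset.range k, g (i + 1) := by
      refine hs.tsum_pos (fun k => ?_) 0 (by simp)
      exact div_nonneg (pow_nonneg hφ.le _) (Finset.prod_nonneg (fun i _ => (hg i).le))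
    show (∑' k : ℕ, (k : ℝ) * (φ ^ k / ∏ i ∈ Finset.range k, g (i + 1))) /
      ∑' k : ℕ, φ ^ k / ∏ i ∈ Finset.range k, g (i + 1) = ρ
    rw [h, mul_div_assoc, div_self hpos.ne', mul_one]
  · obtain ⟨δ1, hδ1, hB⟩ := Rows.base_exists m d hd
    refine ⟨δ1, hδ1, fun δ hδ hδ' => ⟨Rows.exists_clocks m δ hδ d, fun Ω _ P _ C => ?_⟩⟩
    obtain ⟨Cv, a, A, r0, c, hBase⟩ := hB δ hδ hδ'
    exact ⟨Rows.surv_pos hd hδ C hBase, Rows.shape_theorem hd hδ C hBase⟩

end Pool.Agent.Results.MP_646828_pr.SmallRecovery
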